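import Pool.Agent.Helper67_RFK.Reg

/-! # RFK: module OPER (the logarithmic potential operator on `L²(E)`). -/

set_option autoImplicit false

open MeasureTheory Set Pool.Agent.Helper19_LogPot
open scoped ENNReal Topology

namespace Pool.Agent.RFK.H67

/-- the closed disc -/
abbrev Xc (ρ : ℝ) : Type := Metric.closedBall (0 : ℂ) ρ

/-- radial retraction onto the closed disc -/
noncomputable def pr (ρ : ℝ) (x : ℂ) : ℂ := (ρ / max ρ ‖x‖ : ℝ) • x

theorem norm_pr_le {ρ : ℝ} (hρ : 0 < ρ) (x : ℂ) : ‖pr ρ x‖ ≤ ρ := by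
  unfold pr
  have h1 : 0 < max ρ ‖x‖ := lt_of_lt_of_le hρ (le_max_left _ _)
  rw [norm_smul, Real.norm_eq_abs, abs_of_nonneg (by positivity), div_mul_eq_mul_div,
    div_le_iff₀ h1]
  exact mul_le_mul_of_nonneg_left (le_max_right _ _) hρ.le

theorem continuous_pr {ρ : ℝ} (hρ : 0 < ρ) : Continuous (pr ρ) := by
  unfold pr
  refine Continuous.smul (Continuous.div continuous_const
    (continuous_const.max continuous_norm) fun x => ?_) continuous_id
  exact (lt_of_lt_of_le hρ (le_max_left _ _)).ne'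

theorem pr_of_mem {ρ : ℝ} (hρ : 0 < ρ) {x : ℂ} (hx : ‖x‖ ≤ ρ) : pr ρ x = x := by
  unfold pr
  rw [max_eq_left hx, div_self hρ.ne', one_smul]

/-- the retraction as a continuous map to the subtype -/
noncomputable def prc (ρ : ℝ) (hρ : 0 < ρ) : C(ℂ, Xc ρ) where
  toFun x := ⟨pr ρ x, by rw [mem_closedBall_zero_iff]; exact norm_pr_le hρ x⟩
  continuous_toFun := (continuous_pr hρ).subtype_mk _

section

variable {E : Set ℂ} {ρ : ℝ}

theorem sqrt_integral_sq (u : Lp ℝ 2 (volume.restrict E)) :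
    √(∫ y in E, (u y) ^ 2) = ‖u‖ := by
  have h : (inner ℝ u u : ℝ) = ∫ y in E, (u y) ^ 2 := by
    rw [L2.inner_def]
    refine integral_congr_ae (Filter.Eventually.of_forall fun y => ?_)
    simp [sq]
  rw [← h, real_inner_self_eq_norm_sq, Real.sqrt_sq (norm_nonneg _)]

theorem pot_congr {u v : ℂ → ℝ} (h : u =ᵐ[volume.restrict E] v) (x : ℂ) :
    pot E u x = pot E v x := by
  unfold pot
  refine integral_congr_ae ?_
  filter_upwards [h] with y hy
  rw [hy]

theorem pot_add {R : ℝ} (hE : E ⊆ Metric.ball 0 R) {x : ℂ} (hx : x ∈ Metric.ball (0 : ℂ) R)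
    (u v : Lp ℝ 2 (volume.restrict E)) :
    pot E (u + v : Lp ℝ 2 (volume.restrict E)) x = pot E u x + pot E v x := by
  rw [pot_congr (Lp.coeFn_add u v) x]
  unfold pot
  rw [← integral_add (integrable_log_mul hE hx (Lp.memLp u))
    (integrable_log_mul hE hx (Lp.memLp v))]
  refine integral_congr_ae (Filter.Eventually.of_forall fun y => ?_)
  simp only [Pi.add_apply]
  ring

theorem pot_smul (c : ℝ) (u : Lp ℝ 2 (volume.restrict E)) (x : ℂ) :
    pot E (c • u : Lp ℝ 2 (volume.restrict E)) x = c * pot E u x := by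
  rw [pot_congr (Lp.coeFn_smul c u) x]
  unfold pot
  rw [← integral_const_mul]
  refine integral_congr_ae (Filter.Eventually.of_forall fun y => ?_)
  simp only [Pi.smul_apply, smul_eq_mul]
  ring

/-- the restricted potential as a bounded continuous function on the closed disc -/
noncomputable def Su (hEQC : EqcStmt) (hE : MeasurableSet E) (hEb : Bornology.IsBounded E)
    (ρ : ℝ) (u : Lp ℝ 2 (volume.restrict E)) : BoundedContinuousFunction (Xc ρ) ℝ :=
  BoundedContinuousFunction.mkOfCompact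
    ⟨fun x => -pot E u (x : ℂ),
      ((reg hEQC E u hE hEb (Lp.memLp u)).comp continuous_subtype_val).neg⟩

theorem Su_apply (hEQC : EqcStmt) (hE : MeasurableSet E) (hEb : Bornology.IsBounded E)
    (u : Lp ℝ 2 (volume.restrict E)) (x : Xc ρ) :
    Su hEQC hE hEb ρ u x = -pot E u (x : ℂ) := rfl

theorem mem_ball_of_Xc (x : Xc ρ) : (x : ℂ) ∈ Metric.ball (0 : ℂ) (ρ + 1) := by
  have h := x.2
  rw [mem_closedBall_zero_iff] at h
  rw [mem_ball_zero_iff]
  linarith

theorem Su_le (hEQC : EqcStmt) (hE : MeasurableSet E) (hEb : Bornology.IsBounded E)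
    (hER : E ⊆ Metric.ball 0 ρ) (u : Lp ℝ 2 (volume.restrict E)) (x : Xc ρ) :
    |Su hEQC hE hEb ρ u x| ≤ √((CK (2 * (ρ + 1))).toReal) * ‖u‖ := by
  rw [Su_apply, abs_neg, ← sqrt_integral_sq u]
  exact abs_pot_le (hER.trans (Metric.ball_subset_ball (by linarith))) (mem_ball_of_Xc x)
    (Lp.memLp u)

/-- from functions on the closed disc to `L²(E)` -/
noncomputable def Ph (E : Set ℂ) (hEb : Bornology.IsBounded E) (ρ : ℝ) (hρ : 0 < ρ)
    (f : BoundedContinuousFunction (Xc ρ) ℝ) : Lp ℝ 2 (volume.restrict E) :=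
  haveI : IsFiniteMeasure (volume.restrict E) := ⟨by
    rw [Measure.restrict_apply_univ]; exact hEb.measure_lt_top⟩
  BoundedContinuousFunction.toLp 2 (volume.restrict E) ℝ (f.compContinuous (prc ρ hρ))

theorem continuous_Ph (hEb : Bornology.IsBounded E) (hρ : 0 < ρ) :
    Continuous (Ph E hEb ρ hρ) := by
  haveI : IsFiniteMeasure (volume.restrict E) := ⟨by
    rw [Measure.restrict_apply_univ]; exact hEb.measure_lt_top⟩
  unfold Ph
  exact (BoundedContinuousFunction.toLp 2 (volume.restrict E) ℝ).continuous.comp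
    (BoundedContinuousFunction.continuous_compContinuous (prc ρ hρ))

theorem coe_Ph (hE : MeasurableSet E) (hEb : Bornology.IsBounded E) (hρ : 0 < ρ)
    (hER : E ⊆ Metric.ball 0 ρ) (f : BoundedContinuousFunction (Xc ρ) ℝ) (g : ℂ → ℝ)
    (hg : ∀ x : Xc ρ, f x = g x) :
    (Ph E hEb ρ hρ f : ℂ → ℝ) =ᵐ[volume.restrict E] g := by
  haveI : IsFiniteMeasure (volume.restrict E) := ⟨by
    rw [Measure.restrict_apply_univ]; exact hEb.measure_lt_top⟩
  have h1 := BoundedContinuousFunction.coeFn_toLp (p := 2) (μ := volume.restrict E) (𝕜 := ℝ)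
    (f.compContinuous (prc ρ hρ))
  have h2 : ∀ᵐ x ∂(volume.restrict E), x ∈ E := ae_restrict_mem hE
  unfold Ph
  filter_upwards [h1, h2] with x hx hxE
  rw [hx]
  have h3 : ‖x‖ ≤ ρ := by
    have := hER hxE
    rw [mem_ball_zero_iff] at this
    exact this.le
  show f (prc ρ hρ x) = g x
  rw [hg]
  show g (pr ρ x) = g x
  rw [pr_of_mem hρ h3]

/-- the operator as a linear map -/
noncomputable def Tl (hEQC : EqcStmt) (hE : MeasurableSet E) (hEb : Bornology.IsBounded E)
    (hρ : 0 < ρ) (hER : E ⊆ Metric.ball 0 ρ) :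
    Lp ℝ 2 (volume.restrict E) →ₗ[ℝ] Lp ℝ 2 (volume.restrict E) where
  toFun u := Ph E hEb ρ hρ (Su hEQC hE hEb ρ u)
  map_add' u v := by
    refine Lp.ext ?_
    have h1 := coe_Ph hE hEb hρ hER (Su hEQC hE hEb ρ (u + v))
      (fun x => -pot E (u + v : Lp ℝ 2 (volume.restrict E)) x) (fun x => rfl)
    have h2 := coe_Ph hE hEb hρ hER (Su hEQC hE hEb ρ u) (fun x => -pot E u x) (fun x => rfl)
    have h3 := coe_Ph hE hEb hρ hER (Su hEQC hE hEb ρ v) (fun x => -pot E v x) (fun x => rfl)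
    have h4 : ∀ᵐ x ∂(volume.restrict E), x ∈ E := ae_restrict_mem hE
    have h5 := Lp.coeFn_add (Ph E hEb ρ hρ (Su hEQC hE hEb ρ u))
      (Ph E hEb ρ hρ (Su hEQC hE hEb ρ v))
    filter_upwards [h1, h2, h3, h4, h5] with x e1 e2 e3 hx e5
    rw [e1, e5, Pi.add_apply, e2, e3]
    rw [pot_add hER (hER hx)]
    ring
  map_smul' c u := by
    refine Lp.ext ?_
    have h1 := coe_Ph hE hEb hρ hER (Su hEQC hE hEb ρ (c • u))
      (fun x => -pot E (c • u : Lp ℝ 2 (volume.restrict E)) x) (fun x => rfl)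
    have h2 := coe_Ph hE hEb hρ hER (Su hEQC hE hEb ρ u) (fun x => -pot E u x) (fun x => rfl)
    have h5 := Lp.coeFn_smul c (Ph E hEb ρ hρ (Su hEQC hE hEb ρ u))
    filter_upwards [h1, h2, h5] with x e1 e2 e5
    have hgoal : (Ph E hEb ρ hρ (Su hEQC hE hEb ρ (c • u)) : ℂ → ℝ) x
        = ((c • Ph E hEb ρ hρ (Su hEQC hE hEb ρ u) : Lp ℝ 2 (volume.restrict E)) : ℂ → ℝ) x := by
      rw [e1, e5, Pi.smul_apply, e2]
      simp only [smul_eq_mul]
      rw [pot_smul]
      ring
    exact hgoal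

theorem Tl_compact_set (hEQC : EqcStmt) (hE : MeasurableSet E) (hEb : Bornology.IsBounded E)
    (hρ : 0 < ρ) (hER : E ⊆ Metric.ball 0 ρ) :
    ∃ A : Set (Lp ℝ 2 (volume.restrict E)), IsCompact A ∧
      ∀ u : Lp ℝ 2 (volume.restrict E), ‖u‖ ≤ 1 → Tl hEQC hE hEb hρ hER u ∈ A := by
  haveI : CompactSpace (Xc ρ) := isCompact_iff_compactSpace.mp (isCompact_closedBall _ _)
  set M : ℝ := √((CK (2 * (ρ + 1))).toReal) with hM
  set A : Set (BoundedContinuousFunction (Xc ρ) ℝ) :=
    {f | ∃ u : Lp ℝ 2 (volume.restrict E), ‖u‖ ≤ 1 ∧ f = Su hEQC hE hEb ρ u} with hA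
  have hcomp : IsCompact (closure A) := by
    refine BoundedContinuousFunction.arzela_ascoli (Metric.closedBall (0 : ℝ) M)
      (isCompact_closedBall _ _) A ?_ ?_
    · rintro f x ⟨u, hu, rfl⟩
      rw [mem_closedBall_zero_iff, Real.norm_eq_abs]
      refine (Su_le hEQC hE hEb hER u x).trans ?_
      calc M * ‖u‖ ≤ M * 1 := mul_le_mul_of_nonneg_left hu (Real.sqrt_nonneg _)
        _ = M := mul_one _
    · intro x₀
      rw [Metric.equicontinuousAt_iff]
      intro ε hε
      obtain ⟨δ, hδ, hδ2⟩ := hEQC (ρ + 1) (by linarith) (ε ^ 2) (by positivity)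
      refine ⟨δ, hδ, fun x hx f => ?_⟩
      obtain ⟨u, hu, hf⟩ := f.2
      have hx1 := mem_ball_of_Xc x
      have hx0 := mem_ball_of_Xc x₀
      have hlt := hδ2 (x : ℂ) (Metric.ball_subset_closedBall hx1) (x₀ : ℂ)
        (Metric.ball_subset_closedBall hx0) hx
      have hbd := abs_pot_sub_le (hER.trans (Metric.ball_subset_ball (by linarith))) hx1 hx0
        (Lp.memLp u)
      rw [sqrt_integral_sq u] at hbd
      have hf1 : (f : BoundedContinuousFunction (Xc ρ) ℝ) x = -pot E u (x : ℂ) := by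
        rw [hf]; rfl
      have hf0 : (f : BoundedContinuousFunction (Xc ρ) ℝ) x₀ = -pot E u (x₀ : ℂ) := by
        rw [hf]; rfl
      show dist ((f : BoundedContinuousFunction (Xc ρ) ℝ) x₀)
        ((f : BoundedContinuousFunction (Xc ρ) ℝ) x) < ε
      rw [hf1, hf0, Real.dist_eq]
      have e : -pot E u (x₀ : ℂ) - -pot E u (x : ℂ) = pot E u (x : ℂ) - pot E u (x₀ : ℂ) := by
        ring
      rw [e]
      have hs : √(∫ y in Metric.ball (0 : ℂ) (ρ + 1),
          (Real.log ‖(x : ℂ) - y‖ - Real.log ‖(x₀ : ℂ) - y‖) ^ 2) < ε := by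
        rw [← Real.sqrt_sq hε.le]
        exact Real.sqrt_lt_sqrt (integral_nonneg fun y => sq_nonneg _) hlt
      calc |pot E u (x : ℂ) - pot E u (x₀ : ℂ)| ≤ _ := hbd
        _ ≤ √(∫ y in Metric.ball (0 : ℂ) (ρ + 1),
            (Real.log ‖(x : ℂ) - y‖ - Real.log ‖(x₀ : ℂ) - y‖) ^ 2) * 1 :=
            mul_le_mul_of_nonneg_left hu (Real.sqrt_nonneg _)
        _ < ε := by rw [mul_one]; exact hs
  refine ⟨Ph E hEb ρ hρ '' closure A, hcomp.image (continuous_Ph hEb hρ), fun u hu => ?_⟩
  exact ⟨Su hEQC hE hEb ρ u, subset_closure ⟨u, hu, rfl⟩, rfl⟩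

end

theorem oper (hEQC : EqcStmt) : OperStmt := by
  intro E hE hEb
  obtain ⟨R₀, hR₀⟩ := hEb.subset_ball (0 : ℂ)
  set ρ : ℝ := max R₀ 1 with hρdef
  have hρ : 0 < ρ := lt_of_lt_of_le one_pos (le_max_right _ _)
  have hER : E ⊆ Metric.ball 0 ρ := hR₀.trans (Metric.ball_subset_ball (le_max_left _ _))
  haveI : IsFiniteMeasure (volume.restrict E) := ⟨by
    rw [Measure.restrict_apply_univ]; exact hEb.measure_lt_top⟩
  obtain ⟨A, hA, hTA⟩ := Tl_compact_set hEQC hE hEb hρ hER
  -- bounded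
  obtain ⟨C, hC⟩ := hA.isBounded.exists_norm_le
  have hbound : ∀ u, ‖Tl hEQC hE hEb hρ hER u‖ ≤ C * ‖u‖ := by
    intro u
    rcases eq_or_ne u 0 with rfl | hu
    · rw [map_zero, norm_zero, mul_zero]
    · have hu0 : 0 < ‖u‖ := norm_pos_iff.mpr hu
      have h1 : ‖(‖u‖⁻¹ : ℝ) • u‖ ≤ 1 := by
        rw [norm_smul, norm_inv, norm_norm, inv_mul_cancel₀ hu0.ne']
      have h2 := hC _ (hTA _ h1)
      rw [map_smul, norm_smul, norm_inv, norm_norm, inv_mul_le_iff₀ hu0] at h2
      linarith [mul_comm C ‖u‖]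
  set T : Lp ℝ 2 (volume.restrict E) →L[ℝ] Lp ℝ 2 (volume.restrict E) :=
    (Tl hEQC hE hEb hρ hER).mkContinuous C hbound with hT
  have hTapp : ∀ u, T u = Tl hEQC hE hEb hρ hER u := fun u => rfl
  have hcoe : ∀ u : Lp ℝ 2 (volume.restrict E),
      (T u : ℂ → ℝ) =ᵐ[volume.restrict E] fun x => -pot E u x := by
    intro u
    exact coe_Ph hE hEb hρ hER (Su hEQC hE hEb ρ u) (fun x => -pot E u x) (fun x => rfl)
  refine ⟨T, hcoe, ?_, ?_⟩
  · intro u v
    -- the double integral
    have hmeas : AEStronglyMeasurable (fun z : ℂ × ℂ => v z.1 * (Real.log ‖z.1 - z.2‖ * u z.2))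
        ((volume.restrict E).prod (volume.restrict E)) := by
      refine AEStronglyMeasurable.mul ?_ (AEStronglyMeasurable.mul ?_ ?_)
      · exact (Lp.aestronglyMeasurable v).comp_fst
      · exact (Real.measurable_log.comp
          (by fun_prop : Measurable fun z : ℂ × ℂ => ‖z.1 - z.2‖)).aestronglyMeasurable
      · exact (Lp.aestronglyMeasurable u).comp_snd
    have hEmem : ∀ᵐ x ∂(volume.restrict E), x ∈ E := ae_restrict_mem hE
    have hvi : Integrable v (volume.restrict E) := (Lp.memLp v).integrable (by norm_num)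
    have hprod : Integrable (fun z : ℂ × ℂ => v z.1 * (Real.log ‖z.1 - z.2‖ * u z.2))
        ((volume.restrict E).prod (volume.restrict E)) := by
      rw [integrable_prod_iff hmeas]
      refine ⟨?_, ?_⟩
      · filter_upwards [hEmem] with x hx
        exact (integrable_log_mul hER (hER hx) (Lp.memLp u)).const_mul (v x)
      · refine Integrable.mono' (g := fun x => |v x| *
          (√((CK (2 * ρ)).toReal) * √(∫ y in E, |u y| ^ 2))) (hvi.abs.mul_const _)
          hmeas.norm.integral_prod_right' ?_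
        filter_upwards [hEmem] with x hx
        rw [Real.norm_eq_abs, abs_of_nonneg (integral_nonneg fun y => norm_nonneg _)]
        have h1 : ∫ y in E, ‖v x * (Real.log ‖x - y‖ * u y)‖ =
            |v x| * ∫ y in E, |Real.log ‖x - y‖| * |u y| := by
          rw [← integral_const_mul]
          refine integral_congr_ae (Filter.Eventually.of_forall fun y => ?_)
          simp [Real.norm_eq_abs, abs_mul]
        rw [h1]
        refine mul_le_mul_of_nonneg_left ?_ (abs_nonneg _)
        have h2 := cs (memLp_log hER (hER hx)).abs (Lp.memLp u).abs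
        refine (le_abs_self _).trans (h2.trans ?_)
        refine mul_le_mul_of_nonneg_right (Real.sqrt_le_sqrt ?_) (Real.sqrt_nonneg _)
        refine le_trans (le_of_eq ?_) (integral_log_sq_le hER (hER hx))
        refine integral_congr_ae (Filter.Eventually.of_forall fun y => ?_)
        simp only
        exact sq_abs _
    have hL : (inner ℝ (T u) v : ℝ) =
        -∫ x in E, ∫ y in E, v x * (Real.log ‖x - y‖ * u y) := by
      rw [L2.inner_def, ← integral_neg]
      refine integral_congr_ae ?_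
      filter_upwards [hcoe u] with x hx
      rw [hx]
      show (inner ℝ (-pot E u x) (v x) : ℝ) = _
      rw [integral_const_mul]
      unfold pot
      simp
    have hR : (inner ℝ u (T v) : ℝ) =
        -∫ y in E, ∫ x in E, v x * (Real.log ‖x - y‖ * u y) := by
      rw [L2.inner_def, ← integral_neg]
      refine integral_congr_ae ?_
      filter_upwards [hcoe v] with y hy
      rw [hy]
      show (inner ℝ (u y) (-pot E v y) : ℝ) = _
      unfold pot
      have e : ∫ x in E, v x * (Real.log ‖x - y‖ * u y) =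
          u y * ∫ x in E, Real.log ‖y - x‖ * v x := by
        rw [← integral_const_mul]
        refine integral_congr_ae (Filter.Eventually.of_forall fun x => ?_)
        simp only
        rw [norm_sub_rev x y]
        ring
      rw [e]
      simp [mul_comm]
    rw [hL, hR, integral_integral_swap hprod]
  · refine ⟨A, hA, ?_⟩
    refine Filter.mem_of_superset (Metric.closedBall_mem_nhds (0 : Lp ℝ 2 (volume.restrict E))
      one_pos) fun u hu => ?_
    rw [mem_closedBall_zero_iff] at hu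
    exact hTA u hu

end Pool.Agent.RFK.H67
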