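import Pool.Agent.Helper19_RFK.Stmts

/-! # RFK: module REG (the potential of an `L²` function is continuous). -/

set_option autoImplicit false

open MeasureTheory Set Pool.Agent.Helper19_LogPot
open scoped ENNReal Topology

namespace Pool.Agent.RFK.H67

/-- Cauchy-Schwarz -/
theorem cs {μ : Measure ℂ} {f g : ℂ → ℝ} (hf : MemLp f 2 μ) (hg : MemLp g 2 μ) :
    |∫ x, f x * g x ∂μ| ≤ √(∫ x, f x ^ 2 ∂μ) * √(∫ x, g x ^ 2 ∂μ) := by
  have h2 : ENNReal.ofReal (2 : ℝ) = 2 := by norm_num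
  have h := integral_mul_norm_le_Lp_mul_Lq (μ := μ) (f := f) (g := g)
    Real.HolderConjugate.two_two (by rw [h2]; exact hf) (by rw [h2]; exact hg)
  have h1 : |∫ x, f x * g x ∂μ| ≤ ∫ x, ‖f x‖ * ‖g x‖ ∂μ := by
    refine (abs_integral_le_integral_abs).trans (le_of_eq ?_)
    refine integral_congr_ae (Filter.Eventually.of_forall fun x => ?_)
    simp [abs_mul]
  refine h1.trans (h.trans (le_of_eq ?_))
  rw [Real.sqrt_eq_rpow, Real.sqrt_eq_rpow]
  simp [Real.norm_eq_abs]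

/-- integral of the squared kernel over `E` -/
theorem integrable_log_sq {R : ℝ} {E : Set ℂ} (hE : E ⊆ Metric.ball 0 R) {x : ℂ}
    (hx : x ∈ Metric.ball (0 : ℂ) R) :
    Integrable (fun y : ℂ => Real.log ‖x - y‖ ^ 2) (volume.restrict E) := by
  have h1 : Integrable (fun y : ℂ => K (x - y)) (volume.restrict E) := by
    refine ⟨(measurable_K.comp (measurable_const.sub measurable_id)).aestronglyMeasurable, ?_⟩
    rw [hasFiniteIntegral_iff_ofReal (Filter.Eventually.of_forall fun y => K_nonneg _)]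
    exact lt_of_le_of_lt (lintegral_K_sub_le hE hx) (CK_lt_top _)
  refine Integrable.mono' h1 ?_ (Filter.Eventually.of_forall fun y => ?_)
  · exact ((Real.measurable_log.comp (by fun_prop)).pow_const 2).aestronglyMeasurable
  · rw [Real.norm_eq_abs, abs_of_nonneg (sq_nonneg _)]
    exact log_sq_le_K _

theorem integral_log_sq_le {R : ℝ} {E : Set ℂ} (hE : E ⊆ Metric.ball 0 R) {x : ℂ}
    (hx : x ∈ Metric.ball (0 : ℂ) R) :
    ∫ y in E, Real.log ‖x - y‖ ^ 2 ≤ (CK (2 * R)).toReal := by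
  rw [integral_eq_lintegral_of_nonneg_ae (Filter.Eventually.of_forall fun y => sq_nonneg _)
    (integrable_log_sq hE hx).1]
  refine ENNReal.toReal_mono (CK_lt_top _).ne ?_
  refine (lintegral_mono fun y => ?_).trans (lintegral_K_sub_le hE hx)
  exact ENNReal.ofReal_le_ofReal (log_sq_le_K _)

theorem memLp_log {R : ℝ} {E : Set ℂ} (hE : E ⊆ Metric.ball 0 R) {x : ℂ}
    (hx : x ∈ Metric.ball (0 : ℂ) R) :
    MemLp (fun y : ℂ => Real.log ‖x - y‖) 2 (volume.restrict E) := by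
  refine (memLp_two_iff_integrable_sq ?_).mpr (integrable_log_sq hE hx)
  exact (Real.measurable_log.comp
    (by fun_prop : Measurable fun y : ℂ => ‖x - y‖)).aestronglyMeasurable

theorem integrable_log_mul {R : ℝ} {E : Set ℂ} (hE : E ⊆ Metric.ball 0 R) {x : ℂ}
    (hx : x ∈ Metric.ball (0 : ℂ) R) {u : ℂ → ℝ} (hu : MemLp u 2 (volume.restrict E)) :
    Integrable (fun y : ℂ => Real.log ‖x - y‖ * u y) (volume.restrict E) :=
  (memLp_log hE hx).integrable_mul hu

theorem abs_pot_le {R : ℝ} {E : Set ℂ} (hE : E ⊆ Metric.ball 0 R) {x : ℂ}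
    (hx : x ∈ Metric.ball (0 : ℂ) R) {u : ℂ → ℝ} (hu : MemLp u 2 (volume.restrict E)) :
    |pot E u x| ≤ √((CK (2 * R)).toReal) * √(∫ y in E, u y ^ 2) := by
  unfold pot
  refine (cs (memLp_log hE hx) hu).trans ?_
  gcongr
  exact integral_log_sq_le hE hx

theorem abs_pot_sub_le {R : ℝ} {E : Set ℂ} (hE : E ⊆ Metric.ball 0 R) {x x' : ℂ}
    (hx : x ∈ Metric.ball (0 : ℂ) R) (hx' : x' ∈ Metric.ball (0 : ℂ) R) {u : ℂ → ℝ}
    (hu : MemLp u 2 (volume.restrict E)) :
    |pot E u x - pot E u x'| ≤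
      √(∫ y in Metric.ball (0 : ℂ) R, (Real.log ‖x - y‖ - Real.log ‖x' - y‖) ^ 2) *
        √(∫ y in E, u y ^ 2) := by
  have h1 : pot E u x - pot E u x' =
      ∫ y in E, (Real.log ‖x - y‖ - Real.log ‖x' - y‖) * u y := by
    unfold pot
    rw [← integral_sub (integrable_log_mul hE hx hu) (integrable_log_mul hE hx' hu)]
    refine integral_congr_ae (Filter.Eventually.of_forall fun y => ?_)
    simp only
    ring
  rw [h1]
  refine (cs ((memLp_log hE hx).sub (memLp_log hE hx')) hu).trans ?_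
  gcongr
  have h2 : MemLp (fun y : ℂ => Real.log ‖x - y‖ - Real.log ‖x' - y‖) 2
      (volume.restrict (Metric.ball (0 : ℂ) R)) :=
    (memLp_log subset_rfl hx).sub (memLp_log subset_rfl hx')
  exact setIntegral_mono_set h2.integrable_sq
    (Filter.Eventually.of_forall fun y => sq_nonneg _) hE.eventuallyLE

theorem reg (hEQC : EqcStmt) : RegStmt := by
  intro E u hE hEb hu
  rw [Metric.continuous_iff]
  intro x₀ ε hε
  obtain ⟨R₀, hR₀⟩ := hEb.subset_ball (0 : ℂ)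
  set R : ℝ := max R₀ (‖x₀‖ + 1) with hR
  have hR1 : R₀ ≤ R := le_max_left _ _
  have hR2 : ‖x₀‖ + 1 ≤ R := le_max_right _ _
  have hRpos : 0 < R := by
    have := norm_nonneg x₀
    linarith
  have hER : E ⊆ Metric.ball 0 R := hR₀.trans (Metric.ball_subset_ball hR1)
  set U : ℝ := √(∫ y in E, u y ^ 2) with hU
  have hU0 : 0 ≤ U := Real.sqrt_nonneg _
  obtain ⟨δ, hδ, hδ2⟩ := hEQC R hRpos ((ε / (U + 1)) ^ 2) (by positivity)
  refine ⟨min δ 1, lt_min hδ one_pos, fun x hx => ?_⟩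
  have hxd : dist x x₀ < δ := lt_of_lt_of_le hx (min_le_left _ _)
  have hx1 : dist x x₀ < 1 := lt_of_lt_of_le hx (min_le_right _ _)
  have hxn : ‖x‖ < R := by
    rw [dist_eq_norm] at hx1
    have h3 : ‖x‖ ≤ ‖x - x₀‖ + ‖x₀‖ := by
      calc ‖x‖ = ‖(x - x₀) + x₀‖ := by rw [sub_add_cancel]
        _ ≤ ‖x - x₀‖ + ‖x₀‖ := norm_add_le _ _
    linarith
  have hx0n : ‖x₀‖ < R := by linarith
  have hxb : x ∈ Metric.ball (0 : ℂ) R := by rwa [mem_ball_zero_iff]
  have hx0b : x₀ ∈ Metric.ball (0 : ℂ) R := by rwa [mem_ball_zero_iff]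
  have hlt := hδ2 x (Metric.ball_subset_closedBall hxb) x₀ (Metric.ball_subset_closedBall hx0b) hxd
  have hsq : √(∫ y in Metric.ball (0 : ℂ) R, (Real.log ‖x - y‖ - Real.log ‖x₀ - y‖) ^ 2) ≤
      ε / (U + 1) := by
    rw [← Real.sqrt_sq (show 0 ≤ ε / (U + 1) by positivity)]
    exact Real.sqrt_le_sqrt hlt.le
  rw [Real.dist_eq]
  calc |pot E u x - pot E u x₀| ≤
        √(∫ y in Metric.ball (0 : ℂ) R, (Real.log ‖x - y‖ - Real.log ‖x₀ - y‖) ^ 2) * U :=
        abs_pot_sub_le hER hxb hx0b hu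
    _ ≤ ε / (U + 1) * U := mul_le_mul_of_nonneg_right hsq hU0
    _ < ε := by
        rw [div_mul_eq_mul_div, div_lt_iff₀ (by linarith)]
        nlinarith

end Pool.Agent.RFK.H67
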